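import Pool.Agent.Helper54.SRD.Basic

/-!
# The distance is at most the length of a Lipschitz curve in a chart
-/

open Set Filter MeasureTheory
open scoped Manifold ContDiff Topology

noncomputable section

namespace Pool.Agent.Helper72.SRD

open Pool.Agent.Helper54.SRD

section Vec

variable {E : Type*} [NormedAddCommGroup E] [NormedSpace ℝ E] [FiniteDimensional ℝ E]

omit [FiniteDimensional ℝ E] in
theorem nm_nonneg (B : Bil E) (u : E) : 0 ≤ nm B u := Real.sqrt_nonneg _

omit [FiniteDimensional ℝ E] in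
/-- Uniform comparison of the norms near a compact set. -/
theorem unif (hNMC : S_NMC E) (U : Set E) (G : E → Bil E) (hU : IsOpen U)
    (hG : ContinuousOn G U) (hpd : ∀ z ∈ U, IsPD (G z)) (S : Set E) (hS : IsCompact S)
    (hSU : S ⊆ U) (δ : ℝ) (hδ : 0 < δ) :
    ∃ ρ > 0, ∀ x ∈ S, ∀ y, ‖y - x‖ < ρ → y ∈ U ∧ ∀ u,
      nm (G y) u ≤ (1 + δ) ^ 2 * nm (G x) u ∧ nm (G x) u ≤ (1 + δ) ^ 2 * nm (G y) u := by
  have hloc := (hNMC U G hU hG hpd).1
  let V : E → Set E := fun z₀ => interior {z | z ∈ U ∧ ∀ u,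
      nm (G z) u ≤ (1 + δ) * nm (G z₀) u ∧ nm (G z₀) u ≤ (1 + δ) * nm (G z) u}
  obtain ⟨ρ, hρ, hcov⟩ := lebesgue_number_lemma_of_metric (c := fun z₀ : E => V z₀) hS
    (fun z₀ => isOpen_interior) (by
      intro z hz
      refine mem_iUnion.2 ⟨z, ?_⟩
      refine mem_interior_iff_mem_nhds.2 ?_
      filter_upwards [hU.mem_nhds (hSU hz), hloc z (hSU hz) δ hδ] with w hw hw'
      exact ⟨hw, hw'⟩)
  refine ⟨ρ, hρ, fun x hx y hy => ?_⟩
  obtain ⟨z₀, hz₀⟩ := hcov x hx
  have h1 := interior_subset (hz₀ (Metric.mem_ball_self hρ))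
  have h2 := interior_subset (hz₀ (show y ∈ Metric.ball x ρ by
    rw [Metric.mem_ball, dist_eq_norm]; exact hy))
  refine ⟨h2.1, fun u => ⟨?_, ?_⟩⟩
  · calc nm (G y) u ≤ (1 + δ) * nm (G z₀) u := (h2.2 u).1
      _ ≤ (1 + δ) * ((1 + δ) * nm (G x) u) :=
        mul_le_mul_of_nonneg_left (h1.2 u).2 (by linarith)
      _ = (1 + δ) ^ 2 * nm (G x) u := by ring
  · calc nm (G x) u ≤ (1 + δ) * nm (G z₀) u := (h1.2 u).1
      _ ≤ (1 + δ) * ((1 + δ) * nm (G y) u) :=
        mul_le_mul_of_nonneg_left (h2.2 u).2 (by linarith)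
      _ = (1 + δ) ^ 2 * nm (G y) u := by ring

/-- The length density of a Lipschitz curve is integrable. -/
theorem integ (hNMC : S_NMC E) (U : Set E) (G : E → Bil E) (hU : IsOpen U)
    (hG : ContinuousOn G U) (hpd : ∀ z ∈ U, IsPD (G z)) (c : ℝ → E) (a b : ℝ) (K : NNReal)
    (hab : a ≤ b) (hc : LipschitzOnWith K c (Icc a b)) (hcU : ∀ t ∈ Icc a b, c t ∈ U) :
    IntervalIntegrable (fun t => nm (G (c t)) (deriv c t)) volume a b := by
  have hcc : ContinuousOn c (Icc a b) := hc.continuousOn
  have hS : IsCompact (c '' Icc a b) := isCompact_Icc.image_of_continuousOn hcc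
  obtain ⟨m, hm, C, hC, hmC⟩ := (hNMC U G hU hG hpd).2 (c '' Icc a b)
    (by rintro _ ⟨t, ht, rfl⟩; exact hcU t ht) hS
  rw [intervalIntegrable_iff_integrableOn_Ioo_of_le hab]
  have hGc : ContinuousOn (fun t => G (c t)) (Ioo a b) :=
    hG.comp (hcc.mono Ioo_subset_Icc_self) fun t ht => hcU t (Ioo_subset_Icc_self ht)
  have hm1 : AEStronglyMeasurable (fun t => G (c t)) (volume.restrict (Ioo a b)) :=
    hGc.aestronglyMeasurable measurableSet_Ioo
  have hm2 : AEStronglyMeasurable (fun t => deriv c t) (volume.restrict (Ioo a b)) :=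
    aestronglyMeasurable_deriv c _
  have hm3 : AEStronglyMeasurable (fun t => nm (G (c t)) (deriv c t))
      (volume.restrict (Ioo a b)) := by
    have hcont : Continuous fun p : Bil E × E => nm p.1 p.2 := by
      unfold nm
      refine Real.continuous_sqrt.comp ?_
      exact (continuous_fst.clm_apply continuous_snd).clm_apply continuous_snd
    exact hcont.comp_aestronglyMeasurable (hm1.prodMk hm2)
  refine Integrable.of_bound hm3 (C * K) ?_
  · rw [ae_restrict_iff' measurableSet_Ioo]
    refine ae_of_all _ fun t ht => ?_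
    have h1 : ‖deriv c t‖ ≤ K :=
      norm_deriv_le_of_lipschitzOn (Icc_mem_nhds ht.1 ht.2) hc
    rw [Real.norm_eq_abs, abs_of_nonneg (nm_nonneg _ _)]
    refine (hmC (c t) ⟨t, Ioo_subset_Icc_self ht, rfl⟩ _).2.trans ?_
    exact mul_le_mul_of_nonneg_left h1 hC.le

end Vec

section Man

variable (E : Type*) [NormedAddCommGroup E] [NormedSpace ℝ E] [FiniteDimensional ℝ E]
variable (M : Type*) [TopologicalSpace M] [ChartedSpace E M] [IsManifold 𝓘(ℝ, E) ∞ M]

theorem ptw (hAFF : S_AFF E M) (hNMI : S_NMI E) (hNMC : S_NMC E) (hMIN : S_MIN E M) :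
    S_PTW E M := by
  intro hcs ht2 hcon G x c a b K hab hc hcU
  obtain ⟨-, htau, htri, -⟩ := hMIN hcs ht2 hcon G
  have hU : IsOpen (tgt E x) := isOpen_tgt x
  have hG : ContinuousOn (G.G x) (tgt E x) := (G.smooth x).continuousOn
  have hpd : ∀ z ∈ tgt E x, IsPD (G.G x z) := fun z hz => ⟨G.symm x z hz, G.pos x z hz⟩
  have hint := integ hNMC (tgt E x) (G.G x) hU hG hpd c a b K hab hc hcU
  refine ⟨hint, ?_⟩
  have hcc : ContinuousOn c (Icc a b) := hc.continuousOn
  have hS : IsCompact (c '' Icc a b) := isCompact_Icc.image_of_continuousOn hcc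
  set f : ℝ → ℝ := fun t => nm (G.G x (c t)) (deriv c t) with hf
  have hsub : ∀ s t, a ≤ s → s ≤ t → t ≤ b → IntervalIntegrable f volume s t := by
    intro s t has hst htb
    refine hint.mono_set ?_
    rw [uIcc_of_le hst, uIcc_of_le hab]
    exact Icc_subset_Icc has htb
  have key : ∀ δ > 0, tau G (chi x (c a)) (chi x (c b)) ≤ (1 + δ) ^ 4 * ∫ t in a..b, f t := by
    intro δ hδ
    obtain ⟨ρ, hρ, hun⟩ := unif hNMC (tgt E x) (G.G x) hU hG hpd (c '' Icc a b) hS
      (by rintro _ ⟨t, ht, rfl⟩; exact hcU t ht) δ hδ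
    have hlip : ∀ s t, a ≤ s → s ≤ t → t ≤ b → ‖c t - c s‖ ≤ K * (t - s) := by
      intro s t has hst htb
      have := hc.dist_le_mul t ⟨has.trans hst, htb⟩ s ⟨has, hst.trans htb⟩
      rw [dist_eq_norm, Real.dist_eq, abs_of_nonneg (sub_nonneg.2 hst)] at this
      exact this
    have hpiece : ∀ s t, a ≤ s → s ≤ t → t ≤ b → (K : ℝ) * (t - s) < ρ →
        tau G (chi x (c s)) (chi x (c t)) ≤ (1 + δ) ^ 4 * ∫ r in s..t, f r := by
      intro s t has hst htb hK
      have hs : s ∈ Icc a b := ⟨has, hst.trans htb⟩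
      have hcs' : c s ∈ c '' Icc a b := ⟨s, hs, rfl⟩
      have hD : ‖c t - c s‖ < ρ := (hlip s t has hst htb).trans_lt hK
      have h1 : tau G (chi x (c s)) (chi x (c t)) ≤
          (1 + δ) ^ 2 * nm (G.G x (c s)) (c t - c s) := by
        refine le_of_forall_pos_le_add fun ε hε => ?_
        refine htau _ _ _ (hAFF G x (c s) (c t) _ ?_ ?_)
        · have := nm_nonneg (G.G x (c s)) (c t - c s)
          positivity
        · intro r hr
          have hr' : ‖c s + r • (c t - c s) - c s‖ < ρ := by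
            rw [add_sub_cancel_left, norm_smul, Real.norm_eq_abs, abs_of_nonneg hr.1]
            refine lt_of_le_of_lt ?_ hD
            exact mul_le_of_le_one_left (norm_nonneg _) hr.2
          obtain ⟨h2, h3⟩ := hun (c s) hcs' _ hr'
          refine ⟨h2, ?_⟩
          have := (h3 (c t - c s)).1
          linarith
      obtain ⟨h4, h5⟩ := hNMI (G.G x (c s)) (hpd _ (hcU s hs)) c s t K hst
        (hc.mono (Icc_subset_Icc has htb))
      have h6 : ∫ r in s..t, nm (G.G x (c s)) (deriv c r) ≤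
          ∫ r in s..t, (1 + δ) ^ 2 * f r := by
        refine intervalIntegral.integral_mono_on hst h4 ((hsub s t has hst htb).const_mul _) ?_
        intro r hr
        have h7 : ‖c r - c s‖ < ρ := by
          refine (hlip s r has hr.1 (hr.2.trans htb)).trans_lt (lt_of_le_of_lt ?_ hK)
          exact mul_le_mul_of_nonneg_left (by linarith [hr.2]) K.2
        exact ((hun (c s) hcs' _ h7).2 (deriv c r)).2
      rw [intervalIntegral.integral_const_mul] at h6
      calc tau G (chi x (c s)) (chi x (c t))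
          ≤ (1 + δ) ^ 2 * nm (G.G x (c s)) (c t - c s) := h1
        _ ≤ (1 + δ) ^ 2 * ((1 + δ) ^ 2 * ∫ r in s..t, f r) :=
          mul_le_mul_of_nonneg_left (h5.trans h6) (by positivity)
        _ = (1 + δ) ^ 4 * ∫ r in s..t, f r := by ring
    obtain ⟨h, hh, hKh⟩ : ∃ h > 0, (K : ℝ) * h < ρ := by
      refine ⟨ρ / (2 * (K + 1)), by positivity, ?_⟩
      rw [mul_div_assoc', div_lt_iff₀ (by positivity)]
      nlinarith [K.2, hρ, mul_nonneg K.2 hρ.le]
    have hind : ∀ n : ℕ, ∀ t, a ≤ t → t ≤ b → t - a ≤ n * h →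
        tau G (chi x (c a)) (chi x (c t)) ≤ (1 + δ) ^ 4 * ∫ r in a..t, f r := by
      intro n
      induction n with
      | zero =>
        intro t hat htb ht
        have : t = a := by
          rw [Nat.cast_zero, zero_mul] at ht
          linarith
        subst this
        exact hpiece t t le_rfl le_rfl htb (by simpa using hρ)
      | succ n ih =>
        intro t hat htb ht
        have hs1 : a ≤ max a (t - h) := le_max_left _ _
        have hs2 : max a (t - h) ≤ t := max_le hat (by linarith)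
        have hs3 : max a (t - h) - a ≤ n * h := by
          rw [sub_le_iff_le_add]
          refine max_le ?_ ?_
          · have : (0 : ℝ) ≤ n * h := by positivity
            linarith
          · push_cast at ht
            linarith
        have hs4 : (K : ℝ) * (t - max a (t - h)) < ρ := by
          refine lt_of_le_of_lt ?_ hKh
          refine mul_le_mul_of_nonneg_left ?_ K.2
          linarith [le_max_right a (t - h)]
        have h1 := ih _ hs1 (hs2.trans htb) hs3
        have h2 := hpiece _ t hs1 hs2 htb hs4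
        have h3 := htri (chi x (c a)) (chi x (c (max a (t - h)))) (chi x (c t))
        have h4 : (∫ r in a..(max a (t - h)), f r) + ∫ r in (max a (t - h))..t, f r =
            ∫ r in a..t, f r :=
          intervalIntegral.integral_add_adjacent_intervals
            (hsub _ _ le_rfl hs1 (hs2.trans htb)) (hsub _ _ hs1 hs2 htb)
        rw [← h4, mul_add]
        linarith
    obtain ⟨n, hn⟩ := exists_nat_ge ((b - a) / h)
    refine hind n b hab le_rfl ?_
    rwa [div_le_iff₀ hh] at hn
  have hlim : Tendsto (fun δ : ℝ => (1 + δ) ^ 4 * ∫ t in a..b, f t) (𝓝[>] 0)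
      (𝓝 ((1 + 0) ^ 4 * ∫ t in a..b, f t)) := by
    refine Tendsto.mono_left ?_ nhdsWithin_le_nhds
    refine Continuous.tendsto ?_ 0
    fun_prop
  rw [add_zero, one_pow, one_mul] at hlim
  refine ge_of_tendsto hlim ?_
  filter_upwards [self_mem_nhdsWithin] with δ hδ
  exact key δ hδ

end Man

end Pool.Agent.Helper72.SRD
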